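import Pool.Agent.N984.DI.Stm

/-!
# The operator inequality in C*-algebras
-/

set_option autoImplicit false

namespace Pool.Agent.N221.DI

open Pool.Agent.N984.DI

variable {B : Type} [CStarAlgebra B] [PartialOrder B] [StarOrderedRing B]

theorem star_rpow (A : B) (s : ℝ) : star (A ^ s) = A ^ s :=
  (IsSelfAdjoint.of_nonneg (CFC.rpow_nonneg (a := A) (y := s))).star_eq

theorem rr {A : B} (hA : IsStrictlyPositive A) (x y : ℝ) : (A ^ x) ^ y = A ^ (x * y) := by
  by_cases hx : x = 0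
  · subst hx
    rw [zero_mul, CFC.rpow_zero A hA.nonneg, CFC.one_rpow]
  · exact CFC.rpow_rpow A x y hx hA

/-- conjugation by a unitary element and powers -/
theorem conj_pow (U : unitary B) {b : B} (hb : 0 ≤ b) {k : ℝ} (hk : 0 ≤ k) :
    ((U : B) * b * star (U : B)) ^ k = (U : B) * b ^ k * star (U : B) := by
  have hn : 0 ≤ (U : B) * b * star (U : B) := by
    have := star_right_conjugate_le_conjugate hb (U : B)
    simpa using this
  rw [CFC.rpow_eq_cfc_real hb, CFC.rpow_eq_cfc_real hn]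
  have := StarAlgHomClass.map_cfc (R := ℝ) (S := ℝ) (Unitary.conjStarAlgAut ℝ B U)
    (fun x : ℝ => x ^ k) b (Real.continuous_rpow_const hk).continuousOn
    (by
      show Continuous fun x : B => (U : B) * x * star (U : B)
      fun_prop) (IsSelfAdjoint.of_nonneg hb) (IsSelfAdjoint.of_nonneg hn)
  exact this.symm

/-- `(W* W)^(1+k) = W* (W W*)^k W` -/
theorem furuta (W : Bˣ) {k : ℝ} (hk : 0 ≤ k) :
    (star (W : B) * (W : B)) ^ (1 + k) = star (W : B) * ((W : B) * star (W : B)) ^ k * (W : B) := by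
  obtain ⟨b, hb⟩ : ∃ b : B, b = star (W : B) * (W : B) := ⟨_, rfl⟩
  have hbu : IsUnit b := by
    rw [hb]
    exact (W.isUnit.star).mul W.isUnit
  have hbn : 0 ≤ b := by rw [hb]; exact star_mul_self_nonneg _
  have hbp : IsStrictlyPositive b := hbu.isStrictlyPositive hbn
  have hadd : ∀ x y : ℝ, b ^ x * b ^ y = b ^ (x + y) := fun x y => (CFC.rpow_add hbu).symm
  have h1 : b ^ (1 : ℝ) = b := CFC.rpow_one b hbn
  have h0 : b ^ (0 : ℝ) = 1 := CFC.rpow_zero b hbn
  -- the unitary part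
  have hU1 : star ((W : B) * b ^ (-(1 / 2) : ℝ)) * ((W : B) * b ^ (-(1 / 2) : ℝ)) = 1 := by
    rw [star_mul, star_rpow]
    calc b ^ (-(1 / 2) : ℝ) * star (W : B) * ((W : B) * b ^ (-(1 / 2) : ℝ)) =
        b ^ (-(1 / 2) : ℝ) * (star (W : B) * (W : B)) * b ^ (-(1 / 2) : ℝ) := by
          simp only [mul_assoc]
      _ = b ^ (-(1 / 2) : ℝ) * b ^ (1 : ℝ) * b ^ (-(1 / 2) : ℝ) := by rw [← hb, h1]
      _ = 1 := by
          rw [hadd, hadd, ← h0]
          congr 1
          norm_num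
  have hUu : IsUnit ((W : B) * b ^ (-(1 / 2) : ℝ)) := W.isUnit.mul (hbp.rpow b _).isUnit
  have hU2 : ((W : B) * b ^ (-(1 / 2) : ℝ)) * star ((W : B) * b ^ (-(1 / 2) : ℝ)) = 1 := by
    obtain ⟨u, hu⟩ := hUu
    rw [← hu] at hU1 ⊢
    have h2 : star (u : B) = ((u⁻¹ : Bˣ) : B) := by
      have := congrArg (· * ((u⁻¹ : Bˣ) : B)) hU1
      simpa [mul_assoc] using this
    rw [h2]
    simp
  obtain ⟨U, hU⟩ : ∃ U : unitary B, (U : B) = (W : B) * b ^ (-(1 / 2) : ℝ) :=
    ⟨⟨_, Unitary.mem_iff.2 ⟨hU1, hU2⟩⟩, rfl⟩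
  have hW : (W : B) = (U : B) * b ^ (1 / 2 : ℝ) := by
    rw [hU, mul_assoc, hadd]
    norm_num
    rw [h0, mul_one]
  have hW2 : (W : B) * star (W : B) = (U : B) * b * star (U : B) := by
    conv_lhs => rw [hW]
    rw [star_mul, star_rpow]
    calc (U : B) * b ^ (1 / 2 : ℝ) * (b ^ (1 / 2 : ℝ) * star (U : B)) =
        (U : B) * (b ^ (1 / 2 : ℝ) * b ^ (1 / 2 : ℝ)) * star (U : B) := by simp only [mul_assoc]
      _ = _ := by rw [hadd]; norm_num; rw [h1]
  have hUs : star (U : B) * (U : B) = 1 := Unitary.coe_star_mul_self U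
  rw [hW2, conj_pow U hbn hk, ← hb]
  conv_rhs => rw [hW]
  rw [star_mul, star_rpow]
  calc b ^ (1 + k) = b ^ (1 / 2 : ℝ) * b ^ k * b ^ (1 / 2 : ℝ) := by
        rw [hadd, hadd]
        congr 1
        ring
    _ = b ^ (1 / 2 : ℝ) * 1 * b ^ k * 1 * b ^ (1 / 2 : ℝ) := by simp only [mul_one]
    _ = b ^ (1 / 2 : ℝ) * (star (U : B) * (U : B)) * b ^ k * (star (U : B) * (U : B)) *
        b ^ (1 / 2 : ℝ) := by rw [hUs]
    _ = _ := by simp only [mul_assoc]

theorem t_OPC : OPC := by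
  intro B _ _ _ a b ha hb p hp0 hp2 hyp
  obtain ⟨r, hr⟩ : ∃ r : ℝ, r = p / 2 := ⟨_, rfl⟩
  have hr0 : 0 ≤ r := by rw [hr]; linarith
  have hr1 : r ≤ 1 := by rw [hr]; linarith
  rw [← hr] at hyp
  have hbs : star b = b := (IsSelfAdjoint.of_nonneg hb.nonneg).star_eq
  have has : star a = a := (IsSelfAdjoint.of_nonneg ha.nonneg).star_eq
  obtain ⟨S, hS⟩ : ∃ S : B, S = a * a := ⟨_, rfl⟩
  have hSp : IsStrictlyPositive S := by
    refine (ha.isUnit.mul ha.isUnit).isStrictlyPositive ?_ |> fun h => hS ▸ h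
    have := star_mul_self_nonneg a
    rwa [has] at this
  obtain ⟨J, hJ⟩ : ∃ J : B, J = b * (a * a) * b := ⟨_, rfl⟩
  have hJp : IsStrictlyPositive J := by
    rw [hJ]
    refine ((hb.isUnit.mul (ha.isUnit.mul ha.isUnit)).mul hb.isUnit).isStrictlyPositive ?_
    have := star_mul_self_nonneg (a * b)
    rw [star_mul, has, hbs] at this
    simpa only [mul_assoc] using this
  rw [← hJ, ← hS] at hyp
  have haddJ : ∀ x y : ℝ, J ^ x * J ^ y = J ^ (x + y) := fun x y => (CFC.rpow_add hJp.isUnit).symm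
  have hJ1 : J ^ (1 : ℝ) = J := CFC.rpow_one J hJp.nonneg
  have hJ0 : J ^ (0 : ℝ) = 1 := CFC.rpow_zero J hJp.nonneg
  -- conjugation
  have cm : ∀ {x y : B}, x ≤ y → ∀ {c : B}, star c = c → c * x * c ≤ c * y * c := by
    intro x y h c hc
    have := star_left_conjugate_le_conjugate h c
    rwa [hc] at this
  have hJb : b * J ^ r * b ≤ J := by
    have := cm hyp hbs
    rwa [hS, ← hJ] at this
  obtain ⟨C, hC⟩ : ∃ C : B, C = J ^ (r / 2) * b * J ^ (r / 2) := ⟨_, rfl⟩
  have hCp : IsStrictlyPositive C := by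
    have hu : IsUnit (J ^ (r / 2)) := (hJp.rpow J _).isUnit
    rw [hC]
    refine ((hu.mul hb.isUnit).mul hu).isStrictlyPositive ?_
    have := cm hb.nonneg (star_rpow J (r / 2))
    simpa using this
  have hCC : C * C ≤ J ^ (1 + r) := by
    have h1 := cm hJb (star_rpow J (r / 2))
    have h2 : C * C = J ^ (r / 2) * (b * J ^ r * b) * J ^ (r / 2) := by
      rw [hC]
      calc J ^ (r / 2) * b * J ^ (r / 2) * (J ^ (r / 2) * b * J ^ (r / 2)) =
          J ^ (r / 2) * (b * (J ^ (r / 2) * J ^ (r / 2)) * b) * J ^ (r / 2) := by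
            simp only [mul_assoc]
        _ = _ := by rw [haddJ, add_halves]
    have h3 : J ^ (r / 2) * J * J ^ (r / 2) = J ^ (1 + r) := by
      conv_lhs => rw [← hJ1, rr hJp, one_mul]
      rw [haddJ, haddJ]
      congr 1
      ring
    rw [h2, ← h3]
    exact h1
  have haddC : ∀ x y : ℝ, C ^ x * C ^ y = C ^ (x + y) := fun x y => (CFC.rpow_add hCp.isUnit).symm
  have hC1 : C ^ (1 : ℝ) = C := CFC.rpow_one C hCp.nonneg
  have hC2 : C * C = C ^ (2 : ℝ) := by
    rw [show (2 : ℝ) = 1 + 1 by norm_num, ← haddC, hC1]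
  rw [hC2] at hCC
  -- powers of `C`
  have hCe : ∀ e : ℝ, 0 ≤ e → e ≤ 2 → C ^ e ≤ J ^ ((1 + r) * e / 2) := by
    intro e he0 he2
    have := CFC.rpow_le_rpow (p := e / 2) ⟨by linarith, by linarith⟩ hCC
    rw [rr hCp, rr hJp] at this
    rw [show 2 * (e / 2) = e by ring] at this
    rwa [show (1 + r) * e / 2 = (1 + r) * (e / 2) by ring]
  have hbC : b = J ^ (-(r / 2)) * C * J ^ (-(r / 2)) := by
    rw [hC]
    calc b = 1 * b * 1 := by rw [one_mul, mul_one]
      _ = J ^ (-(r / 2) + r / 2) * b * J ^ (r / 2 + -(r / 2)) := by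
          rw [neg_add_cancel, add_neg_cancel, hJ0]
      _ = _ := by
          rw [← haddJ, ← haddJ]
          simp only [mul_assoc]
  -- the claim (2)
  have claim : b ^ (2 * r) ≤ J ^ (r * (1 - r)) := by
    rcases le_total (2 * r) 1 with h2r | h2r
    · have h1 := cm (hCe 1 (by norm_num) (by norm_num)) (star_rpow J (-(r / 2)))
      rw [hC1, ← hbC, haddJ, haddJ] at h1
      have h2 := CFC.rpow_le_rpow (p := 2 * r) ⟨by linarith, h2r⟩ h1
      rw [rr hJp] at h2
      rwa [show (-(r / 2) + (1 + r) * 1 / 2 + -(r / 2)) * (2 * r) = r * (1 - r) by ring] at h2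
    · obtain ⟨k, hk⟩ : ∃ k : ℝ, k = 2 * r - 1 := ⟨_, rfl⟩
      have hk0 : 0 ≤ k := by rw [hk]; linarith
      have hk1 : k ≤ 1 := by rw [hk]; linarith
      have h1r : 0 < 1 + r := by linarith
      obtain ⟨W, hW⟩ : ∃ W : Bˣ, (W : B) = C ^ (1 / 2 : ℝ) * J ^ (-(r / 2)) :=
        ((hCp.rpow C _).isUnit.mul (hJp.rpow J _).isUnit)
      have hWs : star (W : B) = J ^ (-(r / 2)) * C ^ (1 / 2 : ℝ) := by
        rw [hW, star_mul, star_rpow, star_rpow]
      have hWW : star (W : B) * (W : B) = b := by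
        rw [hWs, hW]
        calc J ^ (-(r / 2)) * C ^ (1 / 2 : ℝ) * (C ^ (1 / 2 : ℝ) * J ^ (-(r / 2))) =
            J ^ (-(r / 2)) * (C ^ (1 / 2 : ℝ) * C ^ (1 / 2 : ℝ)) * J ^ (-(r / 2)) := by
              simp only [mul_assoc]
          _ = J ^ (-(r / 2)) * C * J ^ (-(r / 2)) := by
              rw [haddC, add_halves, hC1]
          _ = b := hbC.symm
      have hinv : J ^ (-r) ≤ C ^ (-(2 * r / (1 + r))) := by
        have h1 := CStarAlgebra.rpow_neg_one_le_rpow_neg_one hCC (hCp.rpow C _)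
        rw [rr hCp, rr hJp] at h1
        have h2 := CFC.rpow_le_rpow (p := r / (1 + r))
          ⟨div_nonneg hr0 h1r.le, by rw [div_le_one h1r]; linarith⟩ h1
        rw [rr hCp, rr hJp] at h2
        rw [show (1 + r) * (-1) * (r / (1 + r)) = -r by field_simp,
          show (2 : ℝ) * (-1) * (r / (1 + r)) = -(2 * r / (1 + r)) by ring] at h2
        exact h2
      have hWW2 : (W : B) * star (W : B) ≤ C ^ ((1 - r) / (1 + r)) := by
        have h1 := cm hinv (star_rpow C (1 / 2))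
        have h2 : (W : B) * star (W : B) = C ^ (1 / 2 : ℝ) * J ^ (-r) * C ^ (1 / 2 : ℝ) := by
          rw [hWs, hW]
          calc C ^ (1 / 2 : ℝ) * J ^ (-(r / 2)) * (J ^ (-(r / 2)) * C ^ (1 / 2 : ℝ)) =
              C ^ (1 / 2 : ℝ) * (J ^ (-(r / 2)) * J ^ (-(r / 2))) * C ^ (1 / 2 : ℝ) := by
                simp only [mul_assoc]
            _ = _ := by
                rw [haddJ, show -(r / 2) + -(r / 2) = -r by ring]
        rw [h2]
        refine h1.trans (le_of_eq ?_)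
        rw [haddC, haddC]
        congr 1
        field_simp
        ring
      have h3 := CFC.rpow_le_rpow (p := k) ⟨hk0, hk1⟩ hWW2
      rw [rr hCp] at h3
      have h4 := star_left_conjugate_le_conjugate h3 (W : B)
      rw [← furuta W hk0, hWW] at h4
      have h5 : star (W : B) * C ^ ((1 - r) / (1 + r) * k) * (W : B) =
          J ^ (-(r / 2)) * C ^ (1 + (1 - r) / (1 + r) * k) * J ^ (-(r / 2)) := by
        rw [hWs, hW]
        calc J ^ (-(r / 2)) * C ^ (1 / 2 : ℝ) * C ^ ((1 - r) / (1 + r) * k) *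
            (C ^ (1 / 2 : ℝ) * J ^ (-(r / 2))) =
            J ^ (-(r / 2)) * (C ^ (1 / 2 : ℝ) * C ^ ((1 - r) / (1 + r) * k) *
              C ^ (1 / 2 : ℝ)) * J ^ (-(r / 2)) := by simp only [mul_assoc]
          _ = _ := by
              rw [haddC, haddC]
              congr 3
              ring
      rw [h5] at h4
      have he : (1 - r) / (1 + r) * k ≤ 1 := by
        have : (1 - r) / (1 + r) ≤ 1 := by rw [div_le_one h1r]; linarith
        have h0 : 0 ≤ (1 - r) / (1 + r) := div_nonneg (by linarith) h1r.le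
        nlinarith
      have he0 : 0 ≤ (1 - r) / (1 + r) * k := mul_nonneg (div_nonneg (by linarith) h1r.le) hk0
      have h6 := cm (hCe (1 + (1 - r) / (1 + r) * k) (by linarith) (by linarith))
        (star_rpow J (-(r / 2)))
      have h7 := h4.trans h6
      rw [haddJ, haddJ] at h7
      rw [show 2 * r = 1 + k by rw [hk]; ring]
      refine h7.trans (le_of_eq ?_)
      congr 1
      rw [hk]
      field_simp
      ring
  -- (3)
  have h3 := CFC.rpow_le_rpow (p := 1 - r) ⟨by linarith, by linarith⟩ hyp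
  rw [rr hJp] at h3
  have h4 := claim.trans h3
  have h5 : S ^ (1 - r) = a ^ (2 - p) := by
    have ha1 : a ^ (1 : ℝ) = a := CFC.rpow_one a ha.nonneg
    have : S = a ^ (2 : ℝ) := by
      rw [hS, show (2 : ℝ) = 1 + 1 by norm_num, CFC.rpow_add ha.isUnit, ha1]
    rw [this, rr ha]
    congr 1
    rw [hr]
    ring
  rw [h5, show 2 * r = p by rw [hr]; ring] at h4
  exact h4

end Pool.Agent.N221.DI
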