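import Pool.Agent.N984.DI.Stm

/-!
# The operator inequality for matrices, from the one for C*-algebras
-/

set_option autoImplicit false

namespace Pool.Agent.N221.DI

open Matrix Finset Pool.Agent.N984.DI
open scoped ComplexOrder MatrixOrder Matrix.Norms.L2Operator

theorem rpow_eq {ι : Type} [Fintype ι] [DecidableEq ι] {X : Matrix ι ι ℂ} (hX : 0 ≤ X) (q : ℝ) :
    (X : Matrix ι ι ℂ) ^ (q : ℝ) = mpow X q := by
  rw [CFC.rpow_eq_cfc_real hX]
  rfl

theorem t_OPM (h0 : CFD) (h1 : SPD) (h : OPC) : OP := by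
  intro ι _ _ A B hA hB p hp0 hp2 hAB
  have hA' := hA.isStrictlyPositive
  have hB' := hB.isStrictlyPositive
  have hpos : 0 ≤ B * (A * A) * B := by
    rw [Matrix.nonneg_iff_posSemidef]
    have e : B * (A * A) * B = (A * B)ᴴ * (A * B) := by
      rw [Matrix.conjTranspose_mul, hA.1.eq, hB.1.eq]
      simp only [Matrix.mul_assoc]
    rw [e]
    exact Matrix.posSemidef_conjTranspose_mul_self _
  have key := h (Matrix ι ι ℂ) A B hA' hB' p hp0 hp2 (by
    rw [Matrix.le_iff]
    have := rpow_eq hpos (p / 2)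
    rw [this]
    exact hAB)
  rw [Matrix.le_iff] at key
  have e1 := rpow_eq (Matrix.nonneg_iff_posSemidef.2 hA.posSemidef) (2 - p)
  have e2 := rpow_eq (Matrix.nonneg_iff_posSemidef.2 hB.posSemidef) p
  rw [e1, e2] at key
  exact key

end Pool.Agent.N221.DI
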